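import Mathlib
import Pool.Agent.W1.PatComp
import Pool.Agent.W5h95.PT.Final

/-!
# MP_49a8fd_lc — the inclusion depth over alphabets with at least 6 letters
-/

namespace Pool.Agent.Results.MP_49a8fd_lc.SixLetters

open Pool.Agent.PatDepth Pool.Agent.H344R3.PD Pool.Agent.W1.Pat Pool.Agent.W5h95.PT

/-- `F(p) = 2|p| - #var(p) - 1` for patterns whose letters are coded by numbers -/
def F (p : List (ℕ ⊕ ℕ)) : ℕ := 2 * p.length - nvar p - 1

/-- the code of a pattern over the alphabet `{0, ..., k-1}` -/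
def code {k : ℕ} (p : List (ℕ ⊕ Fin k)) : List (ℕ ⊕ ℕ) := p.map (Sum.map id Fin.val)

/-- (1) `F` is primitive recursive. (2) For every finite alphabet with at least 6 letters,
`L(p) ⊊ L(q)` implies `2|p| - #var(p) > 2|q| - #var(q)`. (3) For every `k ≥ 6` the inclusion depth
of every non-empty pattern `p` over `k` letters is `F(p)`. (4) Over every alphabet with `k ≥ 2`
letters the inclusion depth `d` of a non-empty pattern `p` satisfies `F(p) ≤ d ≤ (7/2) F(p)`, and
`d ≤ 2 F(p)` if `k ≥ 3`, `d ≤ (3/2) F(p)` if `k ≥ 4`, `d ≤ (6/5) F(p)` if `k ≥ 5`. -/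
theorem result :
    Primrec F ∧
    (∀ (A : Type) [Fintype A], 6 ≤ Fintype.card A → ∀ p q : List (ℕ ⊕ A), Lang p ⊂ Lang q →
      2 * q.length + nvar p < 2 * p.length + nvar q) ∧
    (∀ k : ℕ, 6 ≤ k → ∀ p : List (ℕ ⊕ Fin k), p ≠ [] →
      IsGreatest {n | HasChain p n} (F (code p))) ∧
    ∀ k : ℕ, 2 ≤ k → ∀ p : List (ℕ ⊕ Fin k), p ≠ [] →
      ∃ d : ℕ, IsGreatest {n | HasChain p n} d ∧
        F (code p) ≤ d ∧ 2 * d ≤ 7 * F (code p) ∧
        (3 ≤ k → d ≤ 2 * F (code p)) ∧
        (4 ≤ k → 2 * d ≤ 3 * F (code p)) ∧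
        (5 ≤ k → 5 * d ≤ 6 * F (code p)) := by
  have hF : ∀ (k : ℕ) (p : List (ℕ ⊕ Fin k)), F (code p) = 2 * p.length - nvar p - 1 := by
    intro k p
    unfold F code
    rw [nvar_map, List.length_map]
  have hnt : ∀ k : ℕ, 2 ≤ k → Nontrivial (Fin k) := fun k hk => Fin.nontrivial_iff_two_le.mpr hk
  have hlow : ∀ k : ℕ, 2 ≤ k → ∀ p : List (ℕ ⊕ Fin k), p ≠ [] → HasChain p (F (code p)) := by
    intro k hk p h0
    have := hnt k hk
    rw [hF]
    obtain ⟨c, h1, h2, h3, h4⟩ := (chain_greatest h0).1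
    exact ⟨c, h1, h2, h3, fun i hi => (h4 i hi).1⟩
  have hup : ∀ (t u k : ℕ), u ≤ t → 1 ≤ u → 2 ≤ k → LawC (Fin k) t u →
      ∀ (p : List (ℕ ⊕ Fin k)), p ≠ [] → ∀ n, HasChain p n → u * n ≤ t * F (code p) := by
    intro t u k htu hu hk hL p h0 n hn
    have := hnt k hk
    have h1 := depthC hL hn
    rw [hF]
    have h2 := nvar_le_length p
    have h3 : 1 ≤ p.length := List.length_pos_iff.mpr h0
    obtain ⟨s, rfl⟩ : ∃ s, t = u + s := ⟨t - u, by omega⟩
    have h4 : s * nvar p ≤ s * p.length := Nat.mul_le_mul_left s h2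
    zify [show 1 ≤ 2 * p.length - nvar p by omega, show nvar p ≤ 2 * p.length by omega] at h1 h4 ⊢
    nlinarith
  refine ⟨primrec_formula, ?_, ?_, ?_⟩
  · intro A _ hA p q h
    have : Nontrivial A := Fintype.one_lt_card_iff_nontrivial.mp (by omega)
    have := law6 hA p q h
    omega
  · intro k hk p h0
    have := hnt k (by omega)
    refine ⟨hlow k (by omega) p h0, fun n hn => ?_⟩
    have h1 := hup 1 1 k le_rfl le_rfl (by omega) (law6 (by rw [Fintype.card_fin]; exact hk)) p h0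
      n hn
    omega
  · intro k hk p h0
    have := hnt k hk
    have hcases : k = 2 ∨ k = 3 ∨ k = 4 ∨ k = 5 ∨ 6 ≤ k := by omega
    have hall : ∀ n, HasChain p n → 2 * n ≤ 7 * F (code p) ∧ (3 ≤ k → n ≤ 2 * F (code p)) ∧
        (4 ≤ k → 2 * n ≤ 3 * F (code p)) ∧ (5 ≤ k → 5 * n ≤ 6 * F (code p)) := by
      intro n hn
      rcases hcases with rfl | rfl | rfl | rfl | h6
      · have h1 := hup 7 2 2 (by norm_num) (by norm_num) hk (law2 (by rw [Fintype.card_fin])) p h0
          n hn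
        refine ⟨h1, fun h => ?_, fun h => ?_, fun h => ?_⟩ <;> omega
      · have h1 := hup 2 1 3 (by norm_num) (by norm_num) hk (law3 (by rw [Fintype.card_fin])) p h0
          n hn
        refine ⟨by omega, fun h => by omega, fun h => ?_, fun h => ?_⟩ <;> omega
      · have h1 := hup 3 2 4 (by norm_num) (by norm_num) hk (law4 (by rw [Fintype.card_fin])) p h0
          n hn
        refine ⟨by omega, fun h => by omega, fun h => h1, fun h => ?_⟩
        omega
      · have h1 := hup 6 5 5 (by norm_num) (by norm_num) hk (law5 (by rw [Fintype.card_fin])) p h0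
          n hn
        exact ⟨by omega, fun h => by omega, fun h => by omega, fun h => h1⟩
      · have h1 := hup 1 1 k le_rfl le_rfl hk (law6 (by rw [Fintype.card_fin]; exact h6)) p h0 n hn
        exact ⟨by omega, fun h => by omega, fun h => by omega, fun h => by omega⟩
    have hfin : BddAbove {n | HasChain p n} := ⟨7 * F (code p), fun n hn => by
      have := (hall n hn).1
      omega⟩
    have hmem := Nat.sSup_mem ⟨_, hlow k hk p h0⟩ hfin
    exact ⟨sSup {n | HasChain p n}, ⟨hmem, fun n hn => le_csSup hfin hn⟩,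
      le_csSup hfin (hlow k hk p h0), hall _ hmem⟩

end Pool.Agent.Results.MP_49a8fd_lc.SixLetters
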